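import Pool.Agent.helper99.ZR.Spec

set_option autoImplicit false
set_option linter.unusedVariables false

namespace Pool.Agent.ZR

open Finset
open Pool.Agent.helper32.Cant
open Pool.Agent.GA (nrm chi ch St sg flp Psi rc ph pot rpot far nc gf ncs gfs good mj om pick pat et kap mult)
open scoped ENNReal

theorem TOT_um {n : ℕ} {X : Type} [Fintype X] (c : Fam n X) (τ : ZMod (3 ^ (2 * n))) (w : Word n)
    (z : X) : um c (τ, w) z = um c (0, w) z + τ := by
  unfold um
  simp

theorem TOT_cnt {N : ℕ} [NeZero N] (A : ZMod N) {L : ℕ} (hL : L ≤ N) :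
    ∑ t : ZMod N, ind ((A - t).val < L) = (L : ℝ) := by
  have h1 : ∑ t : ZMod N, ind ((A - t).val < L) = ∑ v : ZMod N, ind (v.val < L) :=
    Fintype.sum_equiv (Equiv.subLeft A) _ _ (fun t => rfl)
  rw [h1]
  have h2 : ∑ v : ZMod N, ind (v.val < L) = ∑ k ∈ range N, ind (k < L) := by
    refine Finset.sum_bij' (fun v _ => v.val) (fun k _ => (k : ZMod N)) ?_ ?_ ?_ ?_ ?_
    · intro v _
      exact mem_range.2 (ZMod.val_lt v)
    · intro k _
      exact mem_univ _
    · intro v _
      exact ZMod.natCast_zmod_val v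
    · intro k hk
      exact ZMod.val_cast_of_lt (mem_range.1 hk)
    · intro v _
      rfl
  rw [h2]
  have h3 : range L ⊆ range N := range_subset_range.2 hL
  rw [← sum_subset h3 (f := fun k => ind (k < L))]
  · have : ∀ k ∈ range L, ind (k < L) = 1 := by
      intro k hk
      unfold ind
      rw [if_pos (mem_range.1 hk)]
    rw [sum_congr rfl this, sum_const, card_range, nsmul_eq_mul, mul_one]
  · intro k _ hk
    unfold ind
    rw [if_neg (fun h => hk (mem_range.2 h))]

theorem TOT (gCHI : Pool.Agent.GA.CHI_stmt) : TOT_stmt := by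
  intro n X _ c
  have hpos : ∀ κ p z, 0 < wm c κ p z := fun κ p z => mul_pos (c.pos z) (Real.exp_pos _)
  have hNM : ∀ κ p, 0 ≤ NM c κ p := fun κ p => sum_nonneg fun z _ => (hpos κ p z).le
  have hWt : 0 ≤ Wt c := sum_nonneg fun z _ => (c.pos z).le
  refine ⟨fun κ hκ => ?_, hpos, hNM, hWt, fun L hL w => ⟨?_, fun t => ⟨?_, ?_⟩⟩⟩
  · obtain ⟨-, -, hS⟩ := gCHI (3 ^ (2 * n)) ((3 : ℝ) ^ (2 * n - κ)) (by positivity)
    have h1 : (1 : ℝ) ≤ (3 : ℝ) ^ (2 * n - κ) := one_le_pow₀ (by norm_num)
    have h2 : ∀ z : X, ∑ p : St n, wm c κ p z ≤ c.a z * (2 ^ n * (3 * (3 : ℝ) ^ (2 * n - κ))) := by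
      intro z
      rw [Fintype.sum_prod_type_right]
      have h3 : ∀ w : Word n, ∑ τ : ZMod (3 ^ (2 * n)), wm c κ (τ, w) z ≤
          c.a z * (3 * (3 : ℝ) ^ (2 * n - κ)) := by
        intro w
        have h4 : ∑ τ : ZMod (3 ^ (2 * n)), wm c κ (τ, w) z =
            c.a z * ∑ v : ZMod (3 ^ (2 * n)), chi ((3 : ℝ) ^ (2 * n - κ)) v := by
          rw [mul_sum]
          refine Fintype.sum_equiv (Equiv.addLeft (um c (0, w) z)) _ _ (fun τ => ?_)
          unfold wm
          rw [TOT_um]
          rfl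
        rw [h4]
        refine mul_le_mul_of_nonneg_left ?_ (c.pos z).le
        linarith
      calc ∑ w : Word n, ∑ τ : ZMod (3 ^ (2 * n)), wm c κ (τ, w) z
          ≤ ∑ w : Word n, c.a z * (3 * (3 : ℝ) ^ (2 * n - κ)) := sum_le_sum fun w _ => h3 w
        _ = c.a z * (2 ^ n * (3 * (3 : ℝ) ^ (2 * n - κ))) := by
          rw [sum_const, card_univ, nsmul_eq_mul]
          have : Fintype.card (Word n) = 2 ^ n := by
            rw [Fintype.card_fun, Fintype.card_bool, Fintype.card_fin]
          rw [this]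
          push_cast
          ring
    calc ∑ p, NM c κ p = ∑ z : X, ∑ p : St n, wm c κ p z := by
          unfold NM
          exact sum_comm
      _ ≤ ∑ z : X, c.a z * (2 ^ n * (3 * (3 : ℝ) ^ (2 * n - κ))) := sum_le_sum fun z _ => h2 z
      _ = 3 * (2 ^ n * (3 ^ (2 * n - κ) * Wt c)) := by
          rw [← sum_mul]
          unfold Wt
          ring
  · unfold FI
    rw [sum_comm]
    have h1 : ∀ z : X, ∑ t : ZMod (3 ^ (2 * n)), c.a z * ind ((um c (0, w) z - t).val < L) =
        c.a z * L := by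
      intro z
      rw [← mul_sum, TOT_cnt _ hL]
    rw [sum_congr rfl fun z _ => h1 z, ← sum_mul]
    unfold Wt
    ring
  · unfold FI
    refine sum_nonneg fun z _ => mul_nonneg (c.pos z).le ?_
    unfold ind
    split_ifs
    · exact zero_le_one
    · exact le_rfl
  · unfold FI Wt
    refine sum_le_sum fun z _ => ?_
    have : ind ((um c (0, w) z - t).val < L) ≤ 1 := by
      unfold ind
      split_ifs
      · exact le_rfl
      · exact zero_le_one
    calc c.a z * ind ((um c (0, w) z - t).val < L) ≤ c.a z * 1 :=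
          mul_le_mul_of_nonneg_left this (c.pos z).le
      _ = c.a z := mul_one _

end Pool.Agent.ZR
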